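import Pool.Agent.Helper97.Nag.Goals

/-!
# Project NAG (MP_d3128a_ag): packet NAG-GRKD, the filtered rank lemma (levels of different dimensions)
Adapted from Pool/Agent/Helper32/Tate/GRK.lean.
-/

set_option autoImplicit false

open Finset Module

namespace Pool.Agent.Helper51.Nag.GRKD

lemma shift_sum {K W : Type*} [Field K] [AddCommGroup W] [Module K W] (f : ℕ → W) (ε : K)
    (hε : ε ≠ 0) (j n : ℕ) (h0 : ∀ i < j, f i = 0) :
    ∑ i ∈ range n, ε ^ i • (ε⁻¹ ^ j • f i) =
      ∑ t ∈ range n, ε ^ t • (if j + t < n then f (j + t) else 0) := by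
  have h1 : ∑ i ∈ range n, ε ^ i • (ε⁻¹ ^ j • f i) =
      ∑ i ∈ Ico j n, ε ^ i • (ε⁻¹ ^ j • f i) := by
    symm
    apply Finset.sum_subset
    · intro i hi
      rw [mem_Ico] at hi
      exact mem_range.2 hi.2
    · intro i hi hi'
      rw [mem_Ico] at hi'
      rw [mem_range] at hi
      rw [h0 i (by omega), smul_zero, smul_zero]
  have h2 : ∑ t ∈ range n, ε ^ t • (if j + t < n then f (j + t) else 0) =
      ∑ t ∈ range (n - j), ε ^ t • f (j + t) := by
    rw [← Finset.sum_subset (s₁ := range (n - j)) (s₂ := range n)]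
    · apply sum_congr rfl
      intro t ht
      rw [mem_range] at ht
      rw [if_pos (by omega)]
    · intro t ht
      rw [mem_range] at ht ⊢
      omega
    · intro t ht ht'
      rw [mem_range] at ht ht'
      rw [if_neg (by omega), smul_zero]
  rw [h1, h2, Finset.sum_Ico_eq_sum_range]
  apply sum_congr rfl
  intro t _
  rw [smul_smul, pow_add]
  congr 1
  rw [inv_pow, mul_right_comm, mul_inv_cancel₀ (pow_ne_zero _ hε), one_mul]

theorem t (h : Pool.Agent.Helper97.Tate.S_SEM) : Pool.Agent.Helper97.Nag.S_GRKD := by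
  intro K _ V U _ _ _ _ lam n A _ _ _ F _ L a β hF hn hlam hbot hL hLβ ha
  have hF0 : ∀ j, F j ≤ F 0 := by
    intro j
    induction j with
    | zero => exact le_rfl
    | succ j ih => exact (hF j).trans ih
  have hfd : ∀ j, FiniteDimensional K (F j) := fun j => Submodule.finiteDimensional_of_le (hF0 j)
  choose C hC using fun j => Submodule.exists_isCompl ((F (j + 1)).submoduleOf (F j))
  have hstep : ∀ j, finrank K (F j) = finrank K (F (j + 1)) + finrank K (C j) := by
    intro j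
    rw [← Submodule.finrank_add_eq_of_isCompl (hC j)]
    congr 1
    exact (Submodule.submoduleOfEquivOfLe (hF j)).finrank_eq
  have hdim : ∀ l, finrank K (F 0) = (∑ j ∈ range l, finrank K (C j)) + finrank K (F l) := by
    intro l
    induction l with
    | zero => simp
    | succ l ih => rw [ih, hstep l, sum_range_succ]; ring
  obtain ⟨ι, hι⟩ : ∃ ι : ∀ j : Fin lam, ((j : Fin lam) → C (j : ℕ)) →ₗ[K] V,
      ∀ j, ι j = (F j).subtype ∘ₗ (C j).subtype ∘ₗ LinearMap.proj j := ⟨_, fun _ => rfl⟩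
  have hιa : ∀ j z, ι j z = ((z j : F j) : V) := by
    intro j z
    rw [hι]
    rfl
  obtain ⟨Λ, hΛ⟩ : ∃ Λ : ℕ → ((j : Fin lam) → C (j : ℕ)) →ₗ[K] U,
      ∀ t, Λ t = ∑ j : Fin lam, (if (j : ℕ) + t < n then L (j + t) else 0) ∘ₗ ι j :=
    ⟨_, fun _ => rfl⟩
  obtain ⟨E, hE⟩ := h K ((j : Fin lam) → C (j : ℕ)) U Λ n hn
  classical
  refine ⟨insert 0 E, fun ε hε => ?_⟩
  rw [mem_insert, not_or] at hε
  have h1 := hE ε hε.2
  have hε0 : ε ≠ 0 := hε.1
  obtain ⟨Ψ, hΨ⟩ : ∃ Ψ : V →ₗ[K] U, Ψ = ∑ i ∈ Finset.range n, ε ^ i • L i := ⟨_, rfl⟩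
  rw [← hΨ]
  obtain ⟨T, hT⟩ : ∃ T : ((j : Fin lam) → C (j : ℕ)) →ₗ[K] V,
      T = ∑ j : Fin lam, (ε⁻¹ ^ (j : ℕ)) • ι j := ⟨_, rfl⟩
  have hTm : ∀ z, T z ∈ F 0 := by
    intro z
    rw [hT, LinearMap.sum_apply]
    refine Submodule.sum_mem _ fun j _ => ?_
    rw [LinearMap.smul_apply, hιa]
    exact Submodule.smul_mem _ _ (hF0 j (z j : F j).2)
  have hcomp : ∑ t ∈ range n, ε ^ t • Λ t =
      (Ψ ∘ₗ (F 0).subtype) ∘ₗ (T.codRestrict (F 0) hTm) := by
    refine LinearMap.ext fun z => ?_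
    rw [LinearMap.comp_apply, LinearMap.comp_apply, Submodule.subtype_apply,
      LinearMap.codRestrict_apply, hΨ, hT]
    simp only [LinearMap.sum_apply, LinearMap.smul_apply, hΛ, LinearMap.comp_apply, map_sum,
      map_smul, Finset.smul_sum]
    rw [Finset.sum_comm]
    apply Finset.sum_congr rfl
    intro j _
    have hs := shift_sum (fun i => L i (ι j z)) ε hε0 j n (fun i hi => by
      beta_reduce
      rw [hιa]
      exact hL i j hi _ (z j : F j).2)
    beta_reduce at hs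
    rw [Finset.sum_congr rfl fun i _ => smul_comm (ε⁻¹ ^ (j : ℕ)) (ε ^ i) (L i (ι j z)), hs]
    apply Finset.sum_congr rfl
    intro t _
    split_ifs <;> rfl
  have hker : finrank K (F 0 ⊓ LinearMap.ker Ψ : Submodule K V) =
      finrank K (LinearMap.ker (Ψ ∘ₗ (F 0).subtype)) := by
    rw [← Submodule.map_comap_subtype, Submodule.finrank_map_subtype_eq, LinearMap.ker_comp]
  have hr1 := LinearMap.finrank_range_add_finrank_ker (Ψ ∘ₗ (F 0).subtype)
  have hr2 := LinearMap.finrank_range_add_finrank_ker (∑ t ∈ range n, ε ^ t • Λ t)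
  have hle : finrank K (LinearMap.range (∑ t ∈ range n, ε ^ t • Λ t)) ≤
      finrank K (LinearMap.range (Ψ ∘ₗ (F 0).subtype)) := by
    rw [hcomp]
    exact Submodule.finrank_mono (LinearMap.range_comp_le_range _ _)
  have hV' : finrank K ((j : Fin lam) → C (j : ℕ)) = ∑ j ∈ range lam, finrank K (C j) := by
    rw [Module.finrank_pi_fintype, Finset.sum_range]
  obtain ⟨G, hG⟩ : ∃ G : ((j : Fin lam) → C (j : ℕ)) →ₗ[K] (∀ j : Fin lam, A j),
      G = LinearMap.pi fun j : Fin lam => (a j) ∘ₗ (C j).subtype ∘ₗ LinearMap.proj j :=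
    ⟨_, rfl⟩
  have hGa : ∀ z j, G z j = a j (z j : F j) := by
    intro z j
    rw [hG]
    rfl
  obtain ⟨B, hB⟩ : ∃ B : (∀ j : Fin lam, A j) →ₗ[K] U, B = ∑ j : Fin lam, (β j) ∘ₗ (LinearMap.proj j :
    (∀ j : Fin lam, A j) →ₗ[K] A j) := ⟨_, rfl⟩
  rw [← hB]
  have hΛ0 : Λ 0 = B ∘ₗ G := by
    refine LinearMap.ext fun z => ?_
    rw [hΛ, hB, LinearMap.comp_apply, LinearMap.sum_apply, LinearMap.sum_apply]
    apply Finset.sum_congr rfl
    intro j _
    rw [LinearMap.comp_apply, LinearMap.comp_apply, LinearMap.proj_apply, hGa, hιa,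
      if_pos (by have := j.2; omega), ← hLβ j]
    rfl
  have hGi : Function.Injective G := by
    rw [injective_iff_map_eq_zero]
    intro z hz
    funext j
    have h2 : a j (z j : F j) = 0 := by rw [← hGa, hz]; rfl
    have h3 := ha j _ h2
    have h4 : (z j : F j) ∈ (F (j + 1)).submoduleOf (F j) := h3
    have h5 := Submodule.disjoint_def.1 (hC j).disjoint _ h4 (z j).2
    exact Subtype.ext h5
  have hk0 : finrank K (LinearMap.ker (Λ 0)) ≤ finrank K (LinearMap.ker B) := by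
    rw [hΛ0, LinearMap.ker_comp]
    have h2 : ((LinearMap.ker B).comap G).map G ≤ LinearMap.ker B := Submodule.map_comap_le _ _
    have h3 := Submodule.finrank_mono h2
    rwa [← (Submodule.equivMapOfInjective G hGi _).finrank_eq] at h3
  have h6 := hdim lam
  have h7 : finrank K (F lam) = 0 := by rw [hbot]; exact finrank_bot K V
  rw [hker]
  omega

end Pool.Agent.Helper51.Nag.GRKD
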